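import Pool.Agent.W911.KM.Upper
import Pool.Agent.W900.CH.NELev

/-!
# Resource-bounded measure of `NP` and sparse changes of a random oracle: the objects
-/

set_option autoImplicit false

namespace Pool.Agent.W886.MZ

open Pool.Agent.NPC Pool.Agent.H620R2.Gauge Pool.Agent.W911.KM

/-- the number of the elements less than `m` of the set with characteristic function `h` -/
def rk (h : ℕ → Bool) (m : ℕ) : ℕ := ((List.range m).filter h).length

/-- the string that codes the answer of algorithm number `e` on the string `0 ^ m` -/
def cs (e m : ℕ) : List Bool := List.replicate e true ++ false :: List.replicate (2 ^ m) true

/-- the set with characteristic function `h` is infinite and decidable in polynomial time (the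
numbers are given in unary notation) -/
def Simple (h : ℕ → Bool) : Prop :=
  {m | h m = true}.Infinite ∧ PolyTime (fun x => [h x.length])

/-- algorithm number `e` bets on the string number `j`, which is `0 ^ m` for some `m` in the set
such that more than `e` elements of the set are smaller -/
def tgt (h : ℕ → Bool) (e j : ℕ) : Bool :=
  (List.range (j + 1)).any (fun m => h m && decide (j + 1 = 2 ^ m) && decide (e < rk h m))

end Pool.Agent.W886.MZ
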