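import Pool.Agent.W886.MZ.Stm0
import Pool.Agent.H622R2.Exp.Defs

/-!
# Statements for exponential time
-/

set_option autoImplicit false

namespace Pool.Agent.W886.MZ

open Pool.Agent.NPC Pool.Agent.H620R2.Gauge Pool.Agent.W911.KM Pool.Agent.H622R2.Exp
open Pool.Agent.H628R3.RO (randomOracle)
open MeasureTheory

/-- the string that codes the answer of algorithm number `e` on the string `0 ^ m` -/
def cs2 (e m : ℕ) : List Bool := List.replicate e true ++ false :: List.replicate (2 ^ m ^ 2) true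

/-- the null cover -/
def S_NUL2 : Prop :=
  ∀ (h : ℕ → Bool), Simple h → ∀ (A : Oracle) (X : Set (Set (List Bool))),
    (∀ L ∈ X, ∃ e, ∀ m, h m = true → e < rk h m →
      (A (cs2 e m) = true ↔ List.replicate m false ∈ L)) → NullQP A 2 X

/-- the coding -/
def S_COD2 : Prop :=
  ∀ (h : ℕ → Bool) (Q : ℕ → ℕ → Oracle → Prop) (O : Oracle), ∃ A : Oracle,
    (∀ y, (∀ e m, h m = true → e < rk h m → y ≠ cs2 e m) → A y = O y) ∧
    ∀ e m, h m = true → e < rk h m →
      (A (cs2 e m) = true ↔ Q e m (fun z => if z.length < (cs2 e m).length then A z else false))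

/-- exponential space is given by countably many local conditions -/
def S_PSL2 : Prop :=
  ∃ U : Set (Oracle → List Bool → Prop), U.Countable ∧ U.Nonempty ∧
    (∀ (A : Oracle) (L : Set (List Bool)), InSpace Lin A L → ∃ Φ ∈ U, ∀ y, (y ∈ L ↔ Φ A y)) ∧
    ∀ Φ ∈ U, ∃ c : ℕ, ∀ (y : List Bool) (A A' : Oracle),
      (∀ q : List Bool, q.length ≤ 2 ^ (c * (y.length + 1)) → A q = A' q) → (Φ A y ↔ Φ A' y)

/-- `NP` is not small in exponential time, even after finitely many changes of a random oracle -/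
def S_FIN2 : Prop :=
  ∀ᵐ O ∂randomOracle, ∀ A : Oracle, {y | A y ≠ O y}.Finite → ∀ c, ¬ NullQP A c {L | IsNP A L}

/-- the number of the strings that code answers -/
def S_CNT2 : Prop :=
  ∀ (h : ℕ → Bool) (n : ℕ),
    Set.ncard {y : List Bool | y.length ≤ n ∧ ∃ e m, h m = true ∧ e < rk h m ∧ y = cs2 e m} ≤
      rk h n ^ 2

end Pool.Agent.W886.MZ
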